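import Mathlib

namespace Pool.Agent.Results.MP_7d4bc7_co.CutCounterexample

open Finset Matrix

/-- A connectivity code for `H`: a family of spanning subgraphs of `H` such that the symmetric
difference of any two distinct members is connected. -/
def IsConnectivityCode {V : Type} (H : SimpleGraph V) (C : Set (SimpleGraph V)) : Prop :=
  (∀ G ∈ C, G ≤ H) ∧ ∀ G₁ ∈ C, ∀ G₂ ∈ C, G₁ ≠ G₂ → (symmDiff G₁ G₂).Connected

/-- `m(H)`: the largest size of a connectivity code for `H` (for a finite vertex set). -/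
noncomputable def maxCode {V : Type} (H : SimpleGraph V) : ℕ :=
  sSup {k | ∃ C : Set (SimpleGraph V), IsConnectivityCode H C ∧ C.ncard = k}

open scoped Classical in
/-- The adjacency matrix of a graph is Hermitian. -/
theorem adj_hermitian {V : Type} [Fintype V] (H : SimpleGraph V) :
    (H.adjMatrix ℝ).IsHermitian := by
  rw [Matrix.IsHermitian, Matrix.conjTranspose_eq_transpose_of_trivial]
  exact SimpleGraph.isSymm_adjMatrix H

open scoped Classical in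
/-- `H` is a Ramanujan `d`-regular graph: it is `d`-regular and, its adjacency eigenvalues
(with multiplicity) being listed in decreasing order as entries `0, 1, ..., n - 1`, every
eigenvalue other than entry `0`, and other than entry `n - 1` in case `H` is bipartite, has absolute
value at most `2 * sqrt (d - 1)`. -/
def IsRamanujan {V : Type} [Fintype V] (H : SimpleGraph V) (d : ℕ) : Prop :=
  (∀ v : V, (H.neighborSet v).ncard = d) ∧
  ∀ i : Fin (Fintype.card V), (i : ℕ) ≠ 0 →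
    ¬ (H.IsBipartite ∧ (i : ℕ) + 1 = Fintype.card V) →
    |(adj_hermitian H).eigenvalues₀ i| ≤ 2 * Real.sqrt ((d : ℝ) - 1)

/-- Codes are small when there is a sparse cut. -/
theorem code_le_of_cut {V ι : Type} [Finite V] [Fintype ι] (H : SimpleGraph V) (S : Set V)
    (u w : V) (hu : u ∈ S) (hw : w ∉ S) (f : ι → V × V)
    (hf : ∀ x ∈ S, ∀ y ∉ S, H.Adj x y → ∃ i, f i = (x, y)) :
    maxCode H ≤ 2 ^ Fintype.card ι := by
  classical
  unfold maxCode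
  apply csSup_le'
  rintro k ⟨C, ⟨hC1, hC2⟩, rfl⟩
  let g : SimpleGraph V → Set ι := fun G => {i | G.Adj (f i).1 (f i).2}
  have hinj : Set.InjOn g C := by
    intro G₁ h₁ G₂ h₂ hg
    by_contra hne
    have hconn := hC2 G₁ h₁ G₂ h₂ hne
    obtain ⟨p⟩ := hconn.preconnected u w
    obtain ⟨x, y, hxy, hx, hy⟩ : ∃ x y, (symmDiff G₁ G₂).Adj x y ∧ x ∈ S ∧ y ∉ S := by
      obtain ⟨d, hd, hd1, hd2⟩ := p.exists_boundary_dart S hu hw
      exact ⟨d.fst, d.snd, d.adj, hd1, hd2⟩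
    have hH : H.Adj x y := by
      rcases hxy with h | h
      · exact hC1 _ h₁ h.1
      · exact hC1 _ h₂ h.1
    obtain ⟨i, hi⟩ := hf x hx y hy hH
    have key : G₁.Adj x y ↔ G₂.Adj x y := by
      have : i ∈ g G₁ ↔ i ∈ g G₂ := by rw [hg]
      simpa [g, hi] using this
    rcases hxy with h | h
    · exact h.2 (key.1 h.1)
    · exact h.2 (key.2 h.1)
  calc C.ncard = (g '' C).ncard := hinj.ncard_image.symm
    _ ≤ (Set.univ : Set (Set ι)).ncard := Set.ncard_le_ncard (Set.subset_univ _) Set.finite_univ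
    _ = 2 ^ Fintype.card ι := by
      rw [Set.ncard_univ, Nat.card_eq_fintype_card, Fintype.card_set]

/-- A bound for the nontrivial eigenvalues from a bound on the orthogonal complement of the
constant vectors. -/
theorem eig_bound {V : Type} [Fintype V] [DecidableEq V] (A : Matrix V V ℝ) (hA : A.IsHermitian)
    (d c : ℝ) (hc : 0 ≤ c) (hcd : c < d)
    (h1 : ∀ v, ∑ w, A v w = d)
    (hb : ∀ x : V → ℝ, ∑ v, x v = 0 → ∑ v, (A *ᵥ x) v ^ 2 ≤ c ^ 2 * ∑ v, x v ^ 2)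
    (i : Fin (Fintype.card V)) (hi : (i : ℕ) ≠ 0) : |hA.eigenvalues₀ i| ≤ c := by
  classical
  -- eigenvectors
  have hsym : ∀ v w, A v w = A w v := by
    intro v w
    have := congrFun (congrFun hA v) w
    simpa [Matrix.conjTranspose_apply] using this.symm
  have hev : ∀ k : Fin (Fintype.card V), ∃ x : V → ℝ, A *ᵥ x = (hA.eigenvalues₀ k) • x ∧
      x = hA.eigenvectorBasis ((Fintype.equivOfCardEq (Fintype.card_fin _)) k) := by
    intro k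
    refine ⟨_, ?_, rfl⟩
    have := hA.mulVec_eigenvectorBasis ((Fintype.equivOfCardEq (Fintype.card_fin _)) k)
    rw [this]
    simp [Matrix.IsHermitian.eigenvalues]
  -- orthogonality to constants
  have horth : ∀ (x : V → ℝ) (μ : ℝ), A *ᵥ x = μ • x → μ ≠ d → ∑ v, x v = 0 := by
    intro x μ hx hμ
    have e1 : ∑ v, (A *ᵥ x) v = d * ∑ v, x v := by
      simp only [Matrix.mulVec, dotProduct]
      rw [Finset.sum_comm, Finset.mul_sum]
      refine Finset.sum_congr rfl fun w _ => ?_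
      rw [← Finset.sum_mul, ← h1 w]
      congr 1
      exact Finset.sum_congr rfl fun v _ => hsym v w
    have e2 : ∑ v, (A *ᵥ x) v = μ * ∑ v, x v := by
      rw [hx, Finset.mul_sum]
      exact Finset.sum_congr rfl fun v _ => by simp
    have e3 : (μ - d) * ∑ v, x v = 0 := by rw [sub_mul]; linarith
    rcases mul_eq_zero.1 e3 with h | h
    · exact absurd (by linarith) hμ
    · exact h
  have hbd : ∀ (x : V → ℝ) (μ : ℝ), A *ᵥ x = μ • x → ∑ v, x v = 0 → (∃ v, x v ≠ 0) →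
      |μ| ≤ c := by
    intro x μ hx h0 hne
    have := hb x h0
    rw [hx] at this
    simp only [Pi.smul_apply, smul_eq_mul, mul_pow] at this
    rw [← Finset.mul_sum] at this
    have hpos : 0 < ∑ v, x v ^ 2 := by
      obtain ⟨v, hv⟩ := hne
      exact Finset.sum_pos' (fun v _ => sq_nonneg _) ⟨v, Finset.mem_univ _, by positivity⟩
    have h2 : μ ^ 2 ≤ c ^ 2 := le_of_mul_le_mul_right this hpos
    exact abs_le_of_sq_le_sq h2 hc
  have hne : ∀ k : V, ∃ v, (hA.eigenvectorBasis k : EuclideanSpace ℝ V) v ≠ 0 := by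
    intro k
    by_contra hcon
    push Not at hcon
    have hz : hA.eigenvectorBasis k = 0 := by
      ext v; simpa using hcon v
    have := hA.eigenvectorBasis.orthonormal.1 k
    rw [hz] at this
    simp at this
  have hcard : 0 < Fintype.card V := lt_of_le_of_lt (Nat.zero_le _) i.isLt
  let z : Fin (Fintype.card V) := ⟨0, hcard⟩
  obtain ⟨x, hx, hx'⟩ := hev i
  obtain ⟨y, hy, hy'⟩ := hev z
  by_cases hid : hA.eigenvalues₀ i = d
  · -- the top eigenvalue is then d as well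
    exfalso
    have hge : d ≤ hA.eigenvalues₀ z := by
      rw [← hid]
      exact hA.eigenvalues₀_antitone (Fin.mk_le_of_le_val (Nat.zero_le _))
    have hzd : hA.eigenvalues₀ z = d := by
      by_contra hzd
      have := hbd y _ hy (horth y _ hy hzd) (by rw [hy']; exact hne _)
      have := (abs_le.1 this).2
      linarith
    -- combination
    let w : V → ℝ := fun v => (∑ u, y u) * x v - (∑ u, x u) * y v
    have hw0 : ∑ v, w v = 0 := by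
      simp only [w, Finset.sum_sub_distrib, ← Finset.mul_sum]
      ring
    have hwA : A *ᵥ w = d • w := by
      have : w = (∑ u, y u) • x - (∑ u, x u) • y := by
        ext v; simp [w]
      rw [this, Matrix.mulVec_sub, Matrix.mulVec_smul, Matrix.mulVec_smul, hx, hy, hid, hzd]
      ext v; simp; ring
    have hwz : ∀ v, w v = 0 := by
      by_contra hcon
      push Not at hcon
      have := hbd w d hwA hw0 hcon
      have := (abs_le.1 this).2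
      linarith
    have hxy : inner ℝ (hA.eigenvectorBasis ((Fintype.equivOfCardEq (Fintype.card_fin _)) i))
        (hA.eigenvectorBasis ((Fintype.equivOfCardEq (Fintype.card_fin _)) z)) = (0 : ℝ) := by
      apply hA.eigenvectorBasis.orthonormal.2
      intro h
      have := (Equiv.injective _ h)
      apply hi
      rw [this]
    have hxy' : ∑ v, x v * y v = 0 := by
      rw [hx', hy']
      simpa [EuclideanSpace.inner_eq_star_dotProduct, dotProduct, mul_comm] using hxy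
    have hyy : 0 < ∑ v, y v ^ 2 := by
      obtain ⟨v, hv⟩ := hne ((Fintype.equivOfCardEq (Fintype.card_fin _)) z)
      rw [← hy'] at hv
      exact Finset.sum_pos' (fun v _ => sq_nonneg _) ⟨v, Finset.mem_univ _, by positivity⟩
    have hsx : ∑ u, x u = 0 := by
      have h3 : ∑ v, w v * y v = 0 := Finset.sum_eq_zero fun v _ => by rw [hwz v, zero_mul]
      have h4 : ∑ v, w v * y v = (∑ u, y u) * ∑ v, x v * y v - (∑ u, x u) * ∑ v, y v ^ 2 := by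
        rw [Finset.mul_sum, Finset.mul_sum, ← Finset.sum_sub_distrib]
        exact Finset.sum_congr rfl fun v _ => by simp only [w]; ring
      rw [h3, hxy', mul_zero, zero_sub] at h4
      have h5 : (∑ u, x u) * ∑ v, y v ^ 2 = 0 := by linarith
      rcases mul_eq_zero.1 h5 with h | h
      · exact h
      · exact absurd h hyy.ne'
    have := hbd x _ hx hsx (by rw [hx']; exact hne _)
    rw [hid] at this
    have := (abs_le.1 this).2
    linarith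
  · exact hbd x _ hx (horth x _ hx hid) (by rw [hx']; exact hne _)

theorem sos4 (x : Fin 10 → ℝ) :
    0 ≤ 12 * (x 0 ^ 2 + x 1 ^ 2 + x 2 ^ 2 + x 3 ^ 2 + x 4 ^ 2 + x 5 ^ 2 + x 6 ^ 2 + x 7 ^ 2 + x 8 ^ 2 + x 9 ^ 2) - ((x 2 + x 3 + x 4 + x 5) ^ 2 + (x 2 + x 3 + x 4 + x 6) ^ 2 + (x 0 + x 1 + x 3 + x 4) ^ 2 + (x 0 + x 1 + x 2 + x 4) ^ 2 + (x 0 + x 1 + x 2 + x 3) ^ 2 + (x 0 + x 7 + x 8 + x 9) ^ 2 + (x 1 + x 7 + x 8 + x 9) ^ 2 + (x 5 + x 6 + x 8 + x 9) ^ 2 + (x 5 + x 6 + x 7 + x 9) ^ 2 + (x 5 + x 6 + x 7 + x 8) ^ 2) + (x 0 + x 1 + x 2 + x 3 + x 4 + x 5 + x 6 + x 7 + x 8 + x 9) ^ 2 := by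
  have h : 12 * (x 0 ^ 2 + x 1 ^ 2 + x 2 ^ 2 + x 3 ^ 2 + x 4 ^ 2 + x 5 ^ 2 + x 6 ^ 2 + x 7 ^ 2 + x 8 ^ 2 + x 9 ^ 2) - ((x 2 + x 3 + x 4 + x 5) ^ 2 + (x 2 + x 3 + x 4 + x 6) ^ 2 + (x 0 + x 1 + x 3 + x 4) ^ 2 + (x 0 + x 1 + x 2 + x 4) ^ 2 + (x 0 + x 1 + x 2 + x 3) ^ 2 + (x 0 + x 7 + x 8 + x 9) ^ 2 + (x 1 + x 7 + x 8 + x 9) ^ 2 + (x 5 + x 6 + x 8 + x 9) ^ 2 + (x 5 + x 6 + x 7 + x 9) ^ 2 + (x 5 + x 6 + x 7 + x 8) ^ 2) + (x 0 + x 1 + x 2 + x 3 + x 4 + x 5 + x 6 + x 7 + x 8 + x 9) ^ 2 =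
      9 * (1 * x 0 + (-2/9) * x 1 + (-1/9) * x 2 + (-1/9) * x 3 + (-1/9) * x 4 + (1/9) * x 5 + (1/9) * x 6) ^ 2 + (77/9) * (1 * x 1 + (-1/7) * x 2 + (-1/7) * x 3 + (-1/7) * x 4 + (1/7) * x 5 + (1/7) * x 6) ^ 2 + (61/7) * (1 * x 2 + (-16/61) * x 3 + (-16/61) * x 4 + (2/61) * x 5 + (2/61) * x 6 + (7/61) * x 7 + (7/61) * x 8 + (7/61) * x 9) ^ 2 + (495/61) * (1 * x 3 + (-16/45) * x 4 + (2/45) * x 5 + (2/45) * x 6 + (7/45) * x 7 + (7/45) * x 8 + (7/45) * x 9) ^ 2 + (319/45) * (1 * x 4 + (2/29) * x 5 + (2/29) * x 6 + (7/29) * x 7 + (7/29) * x 8 + (7/29) * x 9) ^ 2 + (251/29) * (1 * x 5 + (-68/251) * x 6 + (-35/251) * x 7 + (-35/251) * x 8 + (-35/251) * x 9) ^ 2 + (2013/251) * (1 * x 6 + (-35/183) * x 7 + (-35/183) * x 8 + (-35/183) * x 9) ^ 2 + (1430/183) * (1 * x 7 + (-53/130) * x 8 + (-53/130) * x 9) ^ 2 + (847/130) * (1 * x 8 + (-53/77) * x 9) ^ 2 + (24/7) * (1 * x 9) ^ 2 :=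 by ring
  rw [h]; positivity

theorem sos5 (x : Fin 12 → ℝ) :
    0 ≤ 16 * (x 0 ^ 2 + x 1 ^ 2 + x 2 ^ 2 + x 3 ^ 2 + x 4 ^ 2 + x 5 ^ 2 + x 6 ^ 2 + x 7 ^ 2 + x 8 ^ 2 + x 9 ^ 2 + x 10 ^ 2 + x 11 ^ 2) - ((x 2 + x 3 + x 4 + x 5 + x 6) ^ 2 + (x 2 + x 3 + x 4 + x 5 + x 7) ^ 2 + (x 0 + x 1 + x 4 + x 5 + x 8) ^ 2 + (x 0 + x 1 + x 4 + x 5 + x 9) ^ 2 + (x 0 + x 1 + x 2 + x 3 + x 5) ^ 2 + (x 0 + x 1 + x 2 + x 3 + x 4) ^ 2 + (x 0 + x 8 + x 9 + x 10 + x 11) ^ 2 + (x 1 + x 8 + x 9 + x 10 + x 11) ^ 2 + (x 2 + x 6 + x 7 + x 10 + x 11) ^ 2 + (x 3 + x 6 + x 7 + x 10 + x 11) ^ 2 + (x 6 + x 7 + x 8 + x 9 + x 11) ^ 2 + (x 6 + x 7 + x 8 + x 9 + x 10) ^ 2) + (x 0 + x 1 + x 2 + x 3 + x 4 + x 5 + x 6 + x 7 + x 8 + x 9 + x 10 + x 11) ^ 2 := by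
  have h : 16 * (x 0 ^ 2 + x 1 ^ 2 + x 2 ^ 2 + x 3 ^ 2 + x 4 ^ 2 + x 5 ^ 2 + x 6 ^ 2 + x 7 ^ 2 + x 8 ^ 2 + x 9 ^ 2 + x 10 ^ 2 + x 11 ^ 2) - ((x 2 + x 3 + x 4 + x 5 + x 6) ^ 2 + (x 2 + x 3 + x 4 + x 5 + x 7) ^ 2 + (x 0 + x 1 + x 4 + x 5 + x 8) ^ 2 + (x 0 + x 1 + x 4 + x 5 + x 9) ^ 2 + (x 0 + x 1 + x 2 + x 3 + x 5) ^ 2 + (x 0 + x 1 + x 2 + x 3 + x 4) ^ 2 + (x 0 + x 8 + x 9 + x 10 + x 11) ^ 2 + (x 1 + x 8 + x 9 + x 10 + x 11) ^ 2 + (x 2 + x 6 + x 7 + x 10 + x 11) ^ 2 + (x 3 + x 6 + x 7 + x 10 + x 11) ^ 2 + (x 6 + x 7 + x 8 + x 9 + x 11) ^ 2 + (x 6 + x 7 + x 8 + x 9 + x 10) ^ 2) + (x 0 + x 1 + x 2 + x 3 + x 4 + x 5 + x 6 + x 7 + x 8 + x 9 + x 10 + x 11) ^ 2 =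
      12 * (1 * x 0 + (-1/4) * x 1 + (-1/12) * x 2 + (-1/12) * x 3 + (-1/6) * x 4 + (-1/6) * x 5 + (1/12) * x 6 + (1/12) * x 7 + (-1/12) * x 8 + (-1/12) * x 9) ^ 2 + (45/4) * (1 * x 1 + (-1/9) * x 2 + (-1/9) * x 3 + (-2/9) * x 4 + (-2/9) * x 5 + (1/9) * x 6 + (1/9) * x 7 + (-1/9) * x 8 + (-1/9) * x 9) ^ 2 + (106/9) * (1 * x 2 + (-29/106) * x 3 + (-11/53) * x 4 + (-11/53) * x 5 + (-7/106) * x 6 + (-7/106) * x 7 + (7/106) * x 8 + (7/106) * x 9) ^ 2 + (1155/106) * (1 * x 3 + (-2/7) * x 4 + (-2/7) * x 5 + (-1/11) * x 6 + (-1/11) * x 7 + (1/11) * x 8 + (1/11) * x 9) ^ 2 + (68/7) * (1 * x 4 + (-37/68) * x 5 + (7/68) * x 10 + (7/68) * x 11) ^ 2 + (465/68) * (1 * x 5 + (7/31) * x 10 + (7/31) * x 11) ^ 2 + (128/11) * (1 * x 6 + (-37/128) * x 7 + (-7/128) * x 8 + (-7/128) * x 9 + (-11/64) * x 10 + (-11/64) * x 11) ^ 2 + (1365/128) * (1 * x 7 + (-1/13) * x 8 + (-1/13) * x 9 + (-22/91)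 * x 10 + (-22/91) * x 11) ^ 2 + (150/13) * (1 * x 8 + (-3/10) * x 9 + (-1/5) * x 10 + (-1/5) * x 11) ^ 2 + (21/2) * (1 * x 9 + (-2/7) * x 10 + (-2/7) * x 11) ^ 2 + (2010/217) * (1 * x 10 + (-83/134) * x 11) ^ 2 + (765/134) * (1 * x 11) ^ 2 := by ring
  rw [h]; positivity

/-- The edges of the graph `H4`: two copies of `K_5` minus an edge (on `0,...,4` and `5,...,9`, the
missing edges being `01` and `56`), joined by the edges `05` and `16`. -/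
def e4 : List (Fin 10 × Fin 10) :=
  [(0, 2), (0, 3), (0, 4), (1, 2), (1, 3), (1, 4), (2, 3), (2, 4), (3, 4), (5, 7), (5, 8), (5, 9),
    (6, 7), (6, 8), (6, 9), (7, 8), (7, 9), (8, 9), (0, 5), (1, 6)]

/-- The graph with edges `e4`. -/
def H4 : SimpleGraph (Fin 10) := SimpleGraph.fromRel fun i j => (i, j) ∈ e4

instance : DecidableRel H4.Adj := fun i j =>
  inferInstanceAs (Decidable (i ≠ j ∧ ((i, j) ∈ e4 ∨ (j, i) ∈ e4)))

/-- The edges of the graph `H5`: two copies of `K_6` minus two disjoint edges, joined by four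
edges. -/
def e5 : List (Fin 12 × Fin 12) :=
  [(0, 2), (0, 3), (0, 4), (0, 5), (1, 2), (1, 3), (1, 4), (1, 5), (2, 4), (2, 5), (3, 4), (3, 5),
    (4, 5), (6, 8), (6, 9), (6, 10), (6, 11), (7, 8), (7, 9), (7, 10), (7, 11), (8, 10), (8, 11),
    (9, 10), (9, 11), (10, 11), (0, 6), (1, 7), (2, 8), (3, 9)]

/-- The graph with edges `e5`. -/
def H5 : SimpleGraph (Fin 12) := SimpleGraph.fromRel fun i j => (i, j) ∈ e5

instance : DecidableRel H5.Adj := fun i j =>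
  inferInstanceAs (Decidable (i ≠ j ∧ ((i, j) ∈ e5 ∨ (j, i) ∈ e5)))

theorem adj4 (i j : Fin 10) : (H4.adjMatrix ℝ) i j =
    if (i, j) ∈ e4 ∨ (j, i) ∈ e4 then 1 else 0 := by
  rw [SimpleGraph.adjMatrix_apply]
  have : H4.Adj i j ↔ ((i, j) ∈ e4 ∨ (j, i) ∈ e4) := by
    revert i j; decide
  simp only [this]

theorem adj5 (i j : Fin 12) : (H5.adjMatrix ℝ) i j =
    if (i, j) ∈ e5 ∨ (j, i) ∈ e5 then 1 else 0 := by
  rw [SimpleGraph.adjMatrix_apply]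
  have : H5.Adj i j ↔ ((i, j) ∈ e5 ∨ (j, i) ∈ e5) := by
    revert i j; decide
  simp only [this]

theorem mv4 (x : Fin 10 → ℝ) (i : Fin 10) : (H4.adjMatrix ℝ *ᵥ x) i =
    ∑ j ∈ Finset.univ.filter (fun j => (i, j) ∈ e4 ∨ (j, i) ∈ e4), x j := by
  simp only [Matrix.mulVec, dotProduct, adj4, Finset.sum_filter, ite_mul, one_mul, zero_mul]

theorem mv5 (x : Fin 12 → ℝ) (i : Fin 12) : (H5.adjMatrix ℝ *ᵥ x) i =
    ∑ j ∈ Finset.univ.filter (fun j => (i, j) ∈ e5 ∨ (j, i) ∈ e5), x j := by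
  simp only [Matrix.mulVec, dotProduct, adj5, Finset.sum_filter, ite_mul, one_mul, zero_mul]

theorem reg4 (v : Fin 10) : (H4.neighborSet v).ncard = 4 := by
  have : H4.neighborSet v = ↑(H4.neighborFinset v) := by simp
  rw [this, Set.ncard_coe_finset, SimpleGraph.card_neighborFinset_eq_degree]
  clear this
  revert v; decide

theorem reg5 (v : Fin 12) : (H5.neighborSet v).ncard = 5 := by
  have : H5.neighborSet v = ↑(H5.neighborFinset v) := by simp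
  rw [this, Set.ncard_coe_finset, SimpleGraph.card_neighborFinset_eq_degree]
  clear this
  revert v; decide

theorem row4_0 (x : Fin 10 → ℝ) : (H4.adjMatrix ℝ *ᵥ x) 0 = x 2 + x 3 + x 4 + x 5 := by
  rw [mv4, show (Finset.univ.filter fun j : Fin 10 => (0, j) ∈ e4 ∨ (j, 0) ∈ e4) =
    {2, 3, 4, 5} by decide]
  simp [add_assoc]

theorem row4_1 (x : Fin 10 → ℝ) : (H4.adjMatrix ℝ *ᵥ x) 1 = x 2 + x 3 + x 4 + x 6 := by
  rw [mv4, show (Finset.univ.filter fun j : Fin 10 => (1, j) ∈ e4 ∨ (j, 1) ∈ e4) =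
    {2, 3, 4, 6} by decide]
  simp [add_assoc]

theorem row4_2 (x : Fin 10 → ℝ) : (H4.adjMatrix ℝ *ᵥ x) 2 = x 0 + x 1 + x 3 + x 4 := by
  rw [mv4, show (Finset.univ.filter fun j : Fin 10 => (2, j) ∈ e4 ∨ (j, 2) ∈ e4) =
    {0, 1, 3, 4} by decide]
  simp [add_assoc]

theorem row4_3 (x : Fin 10 → ℝ) : (H4.adjMatrix ℝ *ᵥ x) 3 = x 0 + x 1 + x 2 + x 4 := by
  rw [mv4, show (Finset.univ.filter fun j : Fin 10 => (3, j) ∈ e4 ∨ (j, 3) ∈ e4) =
    {0, 1, 2, 4} by decide]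
  simp [add_assoc]

theorem row4_4 (x : Fin 10 → ℝ) : (H4.adjMatrix ℝ *ᵥ x) 4 = x 0 + x 1 + x 2 + x 3 := by
  rw [mv4, show (Finset.univ.filter fun j : Fin 10 => (4, j) ∈ e4 ∨ (j, 4) ∈ e4) =
    {0, 1, 2, 3} by decide]
  simp [add_assoc]

theorem row4_5 (x : Fin 10 → ℝ) : (H4.adjMatrix ℝ *ᵥ x) 5 = x 0 + x 7 + x 8 + x 9 := by
  rw [mv4, show (Finset.univ.filter fun j : Fin 10 => (5, j) ∈ e4 ∨ (j, 5) ∈ e4) =
    {0, 7, 8, 9} by decide]
  simp [add_assoc]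

theorem row4_6 (x : Fin 10 → ℝ) : (H4.adjMatrix ℝ *ᵥ x) 6 = x 1 + x 7 + x 8 + x 9 := by
  rw [mv4, show (Finset.univ.filter fun j : Fin 10 => (6, j) ∈ e4 ∨ (j, 6) ∈ e4) =
    {1, 7, 8, 9} by decide]
  simp [add_assoc]

theorem row4_7 (x : Fin 10 → ℝ) : (H4.adjMatrix ℝ *ᵥ x) 7 = x 5 + x 6 + x 8 + x 9 := by
  rw [mv4, show (Finset.univ.filter fun j : Fin 10 => (7, j) ∈ e4 ∨ (j, 7) ∈ e4) =
    {5, 6, 8, 9} by decide]
  simp [add_assoc]

theorem row4_8 (x : Fin 10 → ℝ) : (H4.adjMatrix ℝ *ᵥ x) 8 = x 5 + x 6 + x 7 + x 9 := by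
  rw [mv4, show (Finset.univ.filter fun j : Fin 10 => (8, j) ∈ e4 ∨ (j, 8) ∈ e4) =
    {5, 6, 7, 9} by decide]
  simp [add_assoc]

theorem row4_9 (x : Fin 10 → ℝ) : (H4.adjMatrix ℝ *ᵥ x) 9 = x 5 + x 6 + x 7 + x 8 := by
  rw [mv4, show (Finset.univ.filter fun j : Fin 10 => (9, j) ∈ e4 ∨ (j, 9) ∈ e4) =
    {5, 6, 7, 8} by decide]
  simp [add_assoc]

theorem ineq4 (x : Fin 10 → ℝ) (hx : ∑ v, x v = 0) :
    ∑ v, (H4.adjMatrix ℝ *ᵥ x) v ^ 2 ≤ 12 * ∑ v, x v ^ 2 := by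
  have hs : ∀ y : Fin 10 → ℝ, ∑ v, y v = y 0 + y 1 + y 2 + y 3 + y 4 + y 5 + y 6 + y 7 + y 8 + y 9 := by
    intro y
    rw [show (Finset.univ : Finset (Fin 10)) = {0, 1, 2, 3, 4, 5, 6, 7, 8, 9} by decide]
    simp [add_assoc]
  rw [hs] at hx
  rw [hs, hs]
  rw [row4_0, row4_1, row4_2, row4_3, row4_4, row4_5, row4_6, row4_7, row4_8, row4_9]
  have h := sos4 x
  rw [hx] at h
  linarith

theorem row5_0 (x : Fin 12 → ℝ) : (H5.adjMatrix ℝ *ᵥ x) 0 = x 2 + x 3 + x 4 + x 5 + x 6 := by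
  rw [mv5, show (Finset.univ.filter fun j : Fin 12 => (0, j) ∈ e5 ∨ (j, 0) ∈ e5) =
    {2, 3, 4, 5, 6} by decide]
  simp [add_assoc]

theorem row5_1 (x : Fin 12 → ℝ) : (H5.adjMatrix ℝ *ᵥ x) 1 = x 2 + x 3 + x 4 + x 5 + x 7 := by
  rw [mv5, show (Finset.univ.filter fun j : Fin 12 => (1, j) ∈ e5 ∨ (j, 1) ∈ e5) =
    {2, 3, 4, 5, 7} by decide]
  simp [add_assoc]

theorem row5_2 (x : Fin 12 → ℝ) : (H5.adjMatrix ℝ *ᵥ x) 2 = x 0 + x 1 + x 4 + x 5 + x 8 := by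
  rw [mv5, show (Finset.univ.filter fun j : Fin 12 => (2, j) ∈ e5 ∨ (j, 2) ∈ e5) =
    {0, 1, 4, 5, 8} by decide]
  simp [add_assoc]

theorem row5_3 (x : Fin 12 → ℝ) : (H5.adjMatrix ℝ *ᵥ x) 3 = x 0 + x 1 + x 4 + x 5 + x 9 := by
  rw [mv5, show (Finset.univ.filter fun j : Fin 12 => (3, j) ∈ e5 ∨ (j, 3) ∈ e5) =
    {0, 1, 4, 5, 9} by decide]
  simp [add_assoc]

theorem row5_4 (x : Fin 12 → ℝ) : (H5.adjMatrix ℝ *ᵥ x) 4 = x 0 + x 1 + x 2 + x 3 + x 5 := by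
  rw [mv5, show (Finset.univ.filter fun j : Fin 12 => (4, j) ∈ e5 ∨ (j, 4) ∈ e5) =
    {0, 1, 2, 3, 5} by decide]
  simp [add_assoc]

theorem row5_5 (x : Fin 12 → ℝ) : (H5.adjMatrix ℝ *ᵥ x) 5 = x 0 + x 1 + x 2 + x 3 + x 4 := by
  rw [mv5, show (Finset.univ.filter fun j : Fin 12 => (5, j) ∈ e5 ∨ (j, 5) ∈ e5) =
    {0, 1, 2, 3, 4} by decide]
  simp [add_assoc]

theorem row5_6 (x : Fin 12 → ℝ) : (H5.adjMatrix ℝ *ᵥ x) 6 = x 0 + x 8 + x 9 + x 10 + x 11 := by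
  rw [mv5, show (Finset.univ.filter fun j : Fin 12 => (6, j) ∈ e5 ∨ (j, 6) ∈ e5) =
    {0, 8, 9, 10, 11} by decide]
  simp [add_assoc]

theorem row5_7 (x : Fin 12 → ℝ) : (H5.adjMatrix ℝ *ᵥ x) 7 = x 1 + x 8 + x 9 + x 10 + x 11 := by
  rw [mv5, show (Finset.univ.filter fun j : Fin 12 => (7, j) ∈ e5 ∨ (j, 7) ∈ e5) =
    {1, 8, 9, 10, 11} by decide]
  simp [add_assoc]

theorem row5_8 (x : Fin 12 → ℝ) : (H5.adjMatrix ℝ *ᵥ x) 8 = x 2 + x 6 + x 7 + x 10 + x 11 := by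
  rw [mv5, show (Finset.univ.filter fun j : Fin 12 => (8, j) ∈ e5 ∨ (j, 8) ∈ e5) =
    {2, 6, 7, 10, 11} by decide]
  simp [add_assoc]

theorem row5_9 (x : Fin 12 → ℝ) : (H5.adjMatrix ℝ *ᵥ x) 9 = x 3 + x 6 + x 7 + x 10 + x 11 := by
  rw [mv5, show (Finset.univ.filter fun j : Fin 12 => (9, j) ∈ e5 ∨ (j, 9) ∈ e5) =
    {3, 6, 7, 10, 11} by decide]
  simp [add_assoc]

theorem row5_10 (x : Fin 12 → ℝ) : (H5.adjMatrix ℝ *ᵥ x) 10 = x 6 + x 7 + x 8 + x 9 + x 11 := by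
  rw [mv5, show (Finset.univ.filter fun j : Fin 12 => (10, j) ∈ e5 ∨ (j, 10) ∈ e5) =
    {6, 7, 8, 9, 11} by decide]
  simp [add_assoc]

theorem row5_11 (x : Fin 12 → ℝ) : (H5.adjMatrix ℝ *ᵥ x) 11 = x 6 + x 7 + x 8 + x 9 + x 10 := by
  rw [mv5, show (Finset.univ.filter fun j : Fin 12 => (11, j) ∈ e5 ∨ (j, 11) ∈ e5) =
    {6, 7, 8, 9, 10} by decide]
  simp [add_assoc]

theorem ineq5 (x : Fin 12 → ℝ) (hx : ∑ v, x v = 0) :
    ∑ v, (H5.adjMatrix ℝ *ᵥ x) v ^ 2 ≤ 16 * ∑ v, x v ^ 2 := by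
  have hs : ∀ y : Fin 12 → ℝ, ∑ v, y v = y 0 + y 1 + y 2 + y 3 + y 4 + y 5 + y 6 + y 7 + y 8 + y 9 + y 10 + y 11 := by
    intro y
    rw [show (Finset.univ : Finset (Fin 12)) = {0, 1, 2, 3, 4, 5, 6, 7, 8, 9, 10, 11} by decide]
    simp [add_assoc]
  rw [hs] at hx
  rw [hs, hs]
  rw [row5_0, row5_1, row5_2, row5_3, row5_4, row5_5, row5_6, row5_7, row5_8, row5_9, row5_10, row5_11]
  have h := sos5 x
  rw [hx] at h
  linarith

theorem rs4 (v : Fin 10) : ∑ w, (H4.adjMatrix ℝ) v w = 4 := by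
  simp only [adj4, ← Finset.sum_filter]
  rw [Finset.sum_const, nsmul_eq_mul, mul_one]
  have : (Finset.univ.filter fun j : Fin 10 => (v, j) ∈ e4 ∨ (j, v) ∈ e4).card = 4 := by
    revert v; decide
  rw [this]; norm_num

theorem rs5 (v : Fin 12) : ∑ w, (H5.adjMatrix ℝ) v w = 5 := by
  simp only [adj5, ← Finset.sum_filter]
  rw [Finset.sum_const, nsmul_eq_mul, mul_one]
  have : (Finset.univ.filter fun j : Fin 12 => (v, j) ∈ e5 ∨ (j, v) ∈ e5).card = 5 := by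
    revert v; decide
  rw [this]; norm_num

theorem inst_eq {V : Type} [Fintype V] (H : SimpleGraph V) (i₁ i₂ : DecidableRel H.Adj) :
    (letI := i₁; H.adjMatrix ℝ) = (letI := i₂; H.adjMatrix ℝ) := by
  congr

theorem ram4 : IsRamanujan H4 4 := by
  refine ⟨reg4, fun i hi _ => ?_⟩
  have h3 : (0 : ℝ) ≤ 3 := by norm_num
  have hs : Real.sqrt 3 ^ 2 = 3 := Real.sq_sqrt h3
  have hs0 := Real.sqrt_nonneg 3
  have e : 2 * Real.sqrt (((4 : ℕ) : ℝ) - 1) = 2 * Real.sqrt 3 := by norm_num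
  rw [e]
  refine eig_bound _ (adj_hermitian H4) 4 _ (by positivity) ?_ ?_ ?_ i hi
  · nlinarith
  · intro v
    rw [inst_eq H4 _ (inferInstance : DecidableRel H4.Adj)]
    exact rs4 v
  · intro x hx
    have := ineq4 x hx
    rw [mul_pow, hs, inst_eq H4 _ (inferInstance : DecidableRel H4.Adj),
      show (2 : ℝ) ^ 2 * 3 = 12 by norm_num]
    exact this

theorem ram5 : IsRamanujan H5 5 := by
  refine ⟨reg5, fun i hi _ => ?_⟩
  have hs : Real.sqrt 4 = 2 := by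
    rw [show (4 : ℝ) = 2 ^ 2 by norm_num]
    exact Real.sqrt_sq (by norm_num)
  have e : 2 * Real.sqrt (((5 : ℕ) : ℝ) - 1) = 4 := by
    have : (((5 : ℕ) : ℝ) - 1) = 4 := by norm_num
    rw [this, hs]; norm_num
  rw [e]
  refine eig_bound _ (adj_hermitian H5) 5 _ (by positivity) ?_ ?_ ?_ i hi
  · norm_num
  · intro v
    rw [inst_eq H5 _ (inferInstance : DecidableRel H5.Adj)]
    exact rs5 v
  · intro x hx
    have := ineq5 x hx
    rw [inst_eq H5 _ (inferInstance : DecidableRel H5.Adj), show (4 : ℝ) ^ 2 = 16 by norm_num]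
    exact this

theorem code4 : maxCode H4 ≤ 4 := by
  have h := code_le_of_cut (ι := Fin 2) H4 {v | (v : ℕ) < 5} 0 5 (by simp) (by simp)
    (fun i => if i = 0 then (0, 5) else (1, 6)) (by
      simp only [Set.mem_ofPred_eq]
      decide)
  simpa using h

theorem code5 : maxCode H5 ≤ 16 := by
  have h := code_le_of_cut (ι := Fin 4) H5 {v | (v : ℕ) < 6} 0 6 (by simp) (by simp)
    (fun i => if i = 0 then (0, 6) else if i = 1 then (1, 7) else if i = 2 then (2, 8) else (3, 9))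
    (by
      simp only [Set.mem_ofPred_eq]
      decide)
  simpa using h

/-- The statement `m(H) = 2 ^ d` for all Ramanujan `d`-regular graphs `H` fails for `d = 4` and for
`d = 5`: in both cases there is a Ramanujan `d`-regular graph `H` with `m(H) ≤ 2 ^ (d - 1)`. -/
theorem result (d : ℕ) (hd : d = 4 ∨ d = 5) :
    ∃ (n : ℕ) (H : SimpleGraph (Fin n)), IsRamanujan H d ∧ maxCode H ≤ 2 ^ (d - 1) := by
  rcases hd with rfl | rfl
  · exact ⟨10, H4, ram4, code4.trans (by norm_num)⟩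
  · exact ⟨12, H5, ram5, code5.trans (by norm_num)⟩

end Pool.Agent.Results.MP_7d4bc7_co.CutCounterexample
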